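import Pool.Agent.MP_6b3e96_gt.H77.Spec2
import Pool.Agent.MP_6b3e96_gt.H77.Chk

/-!
The closing condition: an energy estimate for the frame equations, polynomial enclosures at the
two ends of the parameter interval, and the intermediate value theorem.
-/

open Set

noncomputable section

namespace Pool.Agent.MP_6b3e96_gt.H39

open Pool.Agent.MP_6b3e96_gt.H77

lemma le_lin {f f' : ℝ → ℝ} {C : ℝ} (h : ∀ s ∈ Icc (0 : ℝ) 1, HasDerivAt f (f' s) s)
    (hC : ∀ s ∈ Icc (0 : ℝ) 1, f' s ≤ C) {s : ℝ} (hs : s ∈ Icc (0 : ℝ) 1) : f s ≤ f 0 + C * s :=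
  image_le_of_deriv_right_le_deriv_boundary (B := fun x => f 0 + C * x) (B' := fun _ => C)
    (fun x hx => (h x hx).continuousAt.continuousWithinAt)
    (fun x hx => (h x (Ico_subset_Icc_self hx)).hasDerivWithinAt) (by simp) (by fun_prop)
    (fun x _ => by simpa using (((hasDerivAt_id x).const_mul C).const_add (f 0)).hasDerivWithinAt)
    (fun x hx => hC x (Ico_subset_Icc_self hx)) hs

lemma cs {x1 x2 x3 y1 y2 y3 X Y : ℝ} (hX : 0 ≤ X) (hY : 0 ≤ Y) (h1 : x1 ^ 2 + x2 ^ 2 + x3 ^ 2 ≤ X ^ 2)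
    (h2 : y1 ^ 2 + y2 ^ 2 + y3 ^ 2 ≤ Y ^ 2) : |x1 * y1 + x2 * y2 + x3 * y3| ≤ X * Y := by
  refine abs_le_of_sq_le_sq' ?_ (mul_nonneg hX hY) |> abs_le.2
  have h3 := mul_le_mul h1 h2 (by positivity) (by positivity)
  nlinarith [sq_nonneg (x1 * y2 - x2 * y1), sq_nonneg (x1 * y3 - x3 * y1), sq_nonneg (x2 * y3 - x3 * y2)]

lemma norm_le {α β y n p : ℝ → ℝ} (h : Clos α β y n p) {s : ℝ} (hs : s ∈ Icc (0 : ℝ) 1) :
    y s ^ 2 + n s ^ 2 + p s ^ 2 ≤ 1 := by
  have := le_lin (f := fun s => y s ^ 2 + n s ^ 2 + p s ^ 2) (C := 0)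
    (fun s hs => (((h.dy s hs).fun_pow 2).fun_add ((h.dn s hs).fun_pow 2)).fun_add ((h.dp s hs).fun_pow 2))
    (fun s _ => le_of_eq (by push_cast; ring)) hs
  simpa [h.y0, h.n0, h.p0] using this

/-- The energy estimate. -/
lemma stab {α β y n p A B Y N P Y' N' P' : ℝ → ℝ} {a b r : ℝ} (h : Clos α β y n p)
    (Y0 : Y 0 = 1) (N0 : N 0 = 0) (P0 : P 0 = 0)
    (dY : ∀ s ∈ Icc (0 : ℝ) 1, HasDerivAt Y (Y' s) s) (dN : ∀ s ∈ Icc (0 : ℝ) 1, HasDerivAt N (N' s) s)
    (dP : ∀ s ∈ Icc (0 : ℝ) 1, HasDerivAt P (P' s) s) (ha : ∀ s ∈ Icc (0 : ℝ) 1, |α s - A s| ≤ a)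
    (hb : ∀ s ∈ Icc (0 : ℝ) 1, |β s - B s| ≤ b) (r0 : 0 ≤ r)
    (hr : ∀ s ∈ Icc (0 : ℝ) 1, (Y' s - (B s * N s - A s * P s)) ^ 2 + (N' s + B s * Y s) ^ 2 +
      (P' s - A s * Y s) ^ 2 ≤ r ^ 2) : |y 1 - Y 1| ≤ a + b + r := by
  refine le_of_forall_pos_le_add fun η hη => ?_
  have hpos : ∀ s, 0 < (y s - Y s) ^ 2 + (n s - N s) ^ 2 + (p s - P s) ^ 2 + η ^ 2 := fun s => by
    positivity
  have key := le_lin (f := fun s => √((y s - Y s) ^ 2 + (n s - N s) ^ 2 + (p s - P s) ^ 2 + η ^ 2))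
    (C := a + b + r)
    (fun s hs => ((((((h.dy s hs).fun_sub (dY s hs)).fun_pow 2).fun_add
      (((h.dn s hs).fun_sub (dN s hs)).fun_pow 2)).fun_add
      (((h.dp s hs).fun_sub (dP s hs)).fun_pow 2)).add_const (η ^ 2)).sqrt (hpos s).ne')
    (fun s hs => by
      have h0 := Real.sqrt_pos.2 (hpos s)
      have h1 := Real.sq_sqrt (hpos s).le
      have h2 := norm_le h hs
      rw [div_le_iff₀ (by positivity)]
      generalize √((y s - Y s) ^ 2 + (n s - N s) ^ 2 + (p s - P s) ^ 2 + η ^ 2) = S at *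
      have h3 : (y s - Y s) ^ 2 + (n s - N s) ^ 2 + (p s - P s) ^ 2 ≤ S ^ 2 := by
        nlinarith [sq_nonneg η]
      have c1 := cs (y1 := n s) (y2 := -y s) (y3 := 0) h0.le zero_le_one h3
        (by nlinarith [sq_nonneg (p s)])
      have c2 := cs (y1 := -p s) (y2 := 0) (y3 := y s) h0.le zero_le_one h3
        (by nlinarith [sq_nonneg (n s)])
      have c3 := (abs_le.1 (cs h0.le r0 h3 (hr s hs))).1
      have d1 := (le_abs_self _).trans ((abs_mul _ _).le.trans
        (mul_le_mul (hb s hs) c1 (abs_nonneg _) ((abs_nonneg _).trans (hb s hs))))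
      have d2 := (le_abs_self _).trans ((abs_mul _ _).le.trans
        (mul_le_mul (ha s hs) c2 (abs_nonneg _) ((abs_nonneg _).trans (ha s hs))))
      push_cast
      simp only [pow_one]
      nlinarith) (right_mem_Icc.2 zero_le_one)
  simp only [h.y0, h.n0, h.p0, Y0, N0, P0, sub_self, ne_eq, OfNat.ofNat_ne_zero, not_false_eq_true,
    zero_pow, zero_add, Real.sqrt_sq hη.le, mul_one] at key
  refine le_trans (Real.abs_le_sqrt ?_) (key.trans_eq (add_comm _ _))
  nlinarith [sq_nonneg (n 1 - N 1), sq_nonneg (p 1 - P 1), sq_nonneg η]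

section
variable {α : Type} [Add α] [Mul α] [Sub α] [Cst α]

/-- The square of the approximate conformal factor along the side. -/
def Wf (σ : ℤ) (s : α) : α := N2 id (Cst.c σ 0) (s * s) (Cst.c 1 0)

/-- The polynomial inequalities to be checked. -/
def Gf (σ : ℤ) (A B Y N P : List ℤ) (i : ℕ) (s : α) : α :=
  match i with
  | 0 => Wf σ s - Cst.c 1 1
  | 1 => ev1 24 A s
  | 2 => ev1 24 B s
  | 3 => (ev1 24 A s + Cst.c 1 14) * (ev1 24 A s + Cst.c 1 14) -
      Cst.c 65563 16 * kap (Cst.c σ 0) * Wf σ s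
  | 4 => Cst.c 65509 16 * kap (Cst.c σ 0) * Wf σ s -
      (ev1 24 A s - Cst.c 1 14) * (ev1 24 A s - Cst.c 1 14)
  | 5 => (ev1 24 B s + Cst.c 1 12) * (ev1 24 B s + Cst.c 1 12) * Wf σ s - Cst.c 65563 16
  | 6 => Cst.c 65509 16 - (ev1 24 B s - Cst.c 1 12) * (ev1 24 B s - Cst.c 1 12) * Wf σ s
  | _ => Cst.c 1 30 -
      ((ev1 24 (der Y) s - (ev1 24 B s * ev1 24 N s - ev1 24 A s * ev1 24 P s)) *
        (ev1 24 (der Y) s - (ev1 24 B s * ev1 24 N s - ev1 24 A s * ev1 24 P s)) +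
      (ev1 24 (der N) s + ev1 24 B s * ev1 24 Y s) * (ev1 24 (der N) s + ev1 24 B s * ev1 24 Y s) +
      (ev1 24 (der P) s - ev1 24 A s * ev1 24 Y s) * (ev1 24 (der P) s - ev1 24 A s * ev1 24 Y s))

end

/-- The inequalities as expressions in three variables. -/
def Gx (σ : ℤ) (A B Y N P : List ℤ) (i : ℕ) : Ex := fun _ _ _ _ _ _ s _ => Gf σ A B Y N P i s

lemma Gx_hom (σ : ℤ) (A B Y N P : List ℤ) (i : ℕ) : (Gx σ A B Y N P i).Hom := by
  intro p X Y Z D a b c x
  rcases i with _ | _ | _ | _ | _ | _ | _ | i <;>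
    simp only [Gx, Gf, Wf, N2, kap, RV.add_f, RV.mul_f, RV.sub_f, RV.c_f, RV.ev2_f, RV.ev1_f]

/-- The check of all inequalities. -/
def chk (σ : ℤ) (A B Y N P : List ℤ) : Bool :=
  (List.range 8).all fun m => (List.range (2 ^ 1)).all fun i => (List.range (2 ^ 0)).all fun j =>
    ((Gx σ A B Y N P m).box ⟨400, 128, 1⟩ (4 * i + 2) 1 (1 + 2) (2 ^ 0 * 0 + 1 * (4 * j + 2)) 1
      (0 + 0)).v.pos ⟨400, 128, 1⟩

lemma chk_sound {σ : ℤ} {A B Y N P : List ℤ} (h : chk σ A B Y N P = true) {m : ℕ} (hm : m < 8)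
    {s : ℝ} (hs : s ∈ Icc (0 : ℝ) 1) : 0 ≤ Gf σ A B Y N P m s := by
  rw [chk, List.all_eq_true] at h
  exact Ex.grid (Gx_hom σ A B Y N P m) ⟨400, 128, 1⟩ 1 0 0 1 0 one_pos
    (h m (List.mem_range.2 hm)) (d := 0) (q := 0) (by simp) hs.1 hs.2 (by simp) (by simp)

lemma exp_bd {t : ℝ} (ht : |t| ≤ 0.0004) :
    65509 / 2 ^ 16 ≤ Real.exp t ∧ Real.exp t ≤ 65563 / 2 ^ 16 := by
  have h1 := abs_le.1 (Real.abs_exp_sub_one_sub_id_le (x := t) (ht.trans (by norm_num)))
  have h2 := abs_le.1 ht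
  constructor <;> nlinarith

/-- The enclosure at one value of the parameter. -/
lemma encl {σ : ℤ} {A B Y N P : List ℤ} (h : chk σ A B Y N P = true) (hσ : 0 ≤ kap (σ : ℝ))
    (Y0 : ev1 24 Y (0 : ℝ) = 1) (N0 : ev1 24 N (0 : ℝ) = 0) (P0 : ev1 24 P (0 : ℝ) = 0)
    {om y n p : ℝ → ℝ}
    (h1 : ∀ s ∈ Icc (0 : ℝ) 1, |om s - Real.log (N2 id (σ : ℝ) (s * s) 1) / 2| ≤ 0.0002)
    (h2 : Clos (fun s => √(kap (σ : ℝ)) * Real.exp (om s)) (fun s => Real.exp (-om s)) y n p) :
    |y 1 - ev1 24 Y 1| ≤ 1 / 2 ^ 14 + 1 / 2 ^ 12 + 1 / 2 ^ 15 := by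
  have key : ∀ s ∈ Icc (0 : ℝ) 1, |√(kap (σ : ℝ)) * Real.exp (om s) - ev1 24 A s| ≤ 1 / 2 ^ 14 ∧
      |Real.exp (-om s) - ev1 24 B s| ≤ 1 / 2 ^ 12 := fun s hs => by
    have g0 := chk_sound h (m := 0) (by norm_num) hs
    have g1 := chk_sound h (m := 1) (by norm_num) hs
    have g2 := chk_sound h (m := 2) (by norm_num) hs
    have g3 := chk_sound h (m := 3) (by norm_num) hs
    have g4 := chk_sound h (m := 4) (by norm_num) hs
    have g5 := chk_sound h (m := 5) (by norm_num) hs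
    have g6 := chk_sound h (m := 6) (by norm_num) hs
    have h3 := h1 s hs
    simp only [Gf, Wf, c_real, pow_zero, div_one, Int.cast_one, Int.cast_ofNat] at g0 g1 g2 g3 g4 g5 g6
    generalize N2 id (σ : ℝ) (s * s) 1 = W at *
    generalize kap (σ : ℝ) = k at *
    generalize ev1 24 A s = a at *
    generalize ev1 24 B s = b at *
    have W0 : 0 < W := by linarith
    have h4 := abs_le.1 h3
    have e1 := exp_bd (t := 2 * om s - Real.log W) (abs_le.2 ⟨by linarith, by linarith⟩)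
    have e2 := exp_bd (t := Real.log W - 2 * om s) (abs_le.2 ⟨by linarith, by linarith⟩)
    have e3 : (√k * Real.exp (om s)) ^ 2 = Real.exp (2 * om s - Real.log W) * (k * W) := by
      rw [mul_pow, Real.sq_sqrt hσ, Real.exp_sub, Real.exp_log W0, ← Real.exp_nat_mul]
      push_cast
      field_simp
    have e4 : Real.exp (-om s) ^ 2 * W = Real.exp (Real.log W - 2 * om s) := by
      rw [sub_eq_add_neg, Real.exp_add, Real.exp_log W0, ← Real.exp_nat_mul, mul_comm]
      push_cast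
      ring_nf
    have kW : 0 ≤ k * W := by positivity
    have a0 : 0 ≤ √k * Real.exp (om s) := by positivity
    have b0 := (Real.exp_pos (-om s)).le
    generalize √k * Real.exp (om s) = u at *
    generalize Real.exp (-om s) = v at *
    have k1 := mul_le_mul_of_nonneg_right e1.1 kW
    have k2 := mul_le_mul_of_nonneg_right e1.2 kW
    rw [← e3] at k1 k2
    rw [← e4] at e2
    clear e1 e3 e4 h1 h2 h3 h4 h
    rw [← sq] at g3 g4 g5 g6
    have a1 : u ≤ a + 1 / 2 ^ 14 := (abs_le_of_sq_le_sq' (by linarith) (by positivity)).2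
    have a2 : a - 1 / 2 ^ 14 ≤ u := (abs_le_of_sq_le_sq' (by linarith) a0).2
    have b1 : v ≤ b + 1 / 2 ^ 12 :=
      (abs_le_of_sq_le_sq' (le_of_mul_le_mul_right (by linarith [e2.2]) W0) (by positivity)).2
    have b2 : b - 1 / 2 ^ 12 ≤ v :=
      (abs_le_of_sq_le_sq' (le_of_mul_le_mul_right (by linarith [e2.1]) W0) b0).2
    exact ⟨abs_le.2 ⟨by linarith, by linarith⟩, abs_le.2 ⟨by linarith, by linarith⟩⟩
  refine stab h2 Y0 N0 P0 (fun s _ => hasDerivAt_ev1 24 Y s) (fun s _ => hasDerivAt_ev1 24 N s)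
    (fun s _ => hasDerivAt_ev1 24 P s) (fun s hs => (key s hs).1) (fun s hs => (key s hs).2)
    (by positivity) fun s hs => ?_
  have g7 := chk_sound h (m := 7) (by norm_num) hs
  simp only [Gf, c_real, Int.cast_one] at g7
  simp only [sq]
  linarith [show (1 : ℝ) / 2 ^ 15 * (1 / 2 ^ 15) = 1 / 2 ^ 30 by norm_num]

lemma chk_pos : chk 1 [3139692, -1311, -1016396, -182733, 1896905, -1412469, 343065]
    [16238697, 99, 5379478, 25000, -4527512, 249652, 1328233, -186919, -79152]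
    [16777216, 5, -8152955, 7937, -1072487, 250611, 367466, 818310, -802303, 184933]
    [0, -16238702, 314, 830828, 39690, 1451225, 319437, -993120, 241666, 25518]
    [0, 3139699, -993, -843384, -66710, 502670, -330530, 72981] = true := by
  decide +kernel

lemma chk_neg : chk (-1) [3095217, -1291, -1000704, -179911, 1867550, -1390563, 337731]
    [16225034, 98, 5368032, 24745, -4518850, 245643, 1335635, -194441, -76990]
    [16777216, 5, -8131468, 7858, -1072089, 248024, 372310, 809659, -796849, 183817]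
    [0, -16225038, 312, 825541, 39493, 1447830, 318246, -990805, 242003, 25058]
    [0, 3095224, -977, -829703, -65602, 494342, -325019, 71754] = true := by
  decide +kernel

theorem close : CloseStmt := by
  intro om y n p H hc
  have m1 : (1 : ℝ) ∈ Icc (-1 : ℝ) 1 := by constructor <;> norm_num
  have m2 : (-1 : ℝ) ∈ Icc (-1 : ℝ) 1 := by constructor <;> norm_num
  have e1 := abs_le.1 (encl chk_pos (by norm_num [kap, c_real]) (by norm_num [ev1, c_real])
    (by simp [ev1, c_real]) (by simp [ev1, c_real]) (by simpa using (H 1 m1).2.1)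
    (by simpa using (H 1 m1).2.2.1))
  have e2 := abs_le.1 (encl chk_neg (by norm_num [kap, c_real]) (by norm_num [ev1, c_real])
    (by simp [ev1, c_real]) (by simp [ev1, c_real]) (by simpa using (H (-1) m2).2.1)
    (by simpa using (H (-1) m2).2.2.1))
  norm_num [ev1, c_real] at e1 e2
  have hy : ContinuousOn (fun d => y d 1) (Icc (-1) 1) := fun d hd => by
    rw [Metric.continuousWithinAt_iff]
    intro ε hε
    obtain ⟨M, hM⟩ := isCompact_Icc.exists_bound_of_continuousOn (H d hd).1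
    have c1 : ContinuousAt (fun x : ℝ × ℝ =>
        Real.exp M * (|√(kap x.1) * Real.exp x.2 - √(kap d)| + |Real.exp (-x.2) - 1|)) (d, 0) := by
      unfold kap
      fun_prop
    obtain ⟨δ, δ0, hδ⟩ := Metric.continuousAt_iff.1 c1 (ε / 3) (by positivity)
    obtain ⟨δ', δ1, hδ'⟩ := hc (δ / 2) (by positivity)
    refine ⟨min δ δ', lt_min δ0 δ1, fun d' hd' h => ?_⟩
    rw [lt_min_iff] at h
    have key : ∀ s ∈ Icc (0 : ℝ) 1,
        |√(kap d') * Real.exp (om d' s) - √(kap d) * Real.exp (om d s)| ≤ ε / 3 ∧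
        |Real.exp (-om d' s) - Real.exp (-om d s)| ≤ ε / 3 := fun s hs => by
      have h1 := hδ' d' hd' d hd h.2 s hs
      have h2 := hδ (x := (d', om d' s - om d s)) (by
        rw [Prod.dist_eq, max_lt_iff]
        exact ⟨h.1, by rw [Real.dist_0_eq_abs]; linarith⟩)
      have h3 := abs_le.1 (hM s hs)
      simp only [Real.exp_zero, mul_one, sub_self, abs_zero, neg_zero, add_zero, mul_zero,
        Real.dist_0_eq_abs] at h2
      have h4 := (le_abs_self _).trans h2.le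
      have f1 : √(kap d') * Real.exp (om d' s) - √(kap d) * Real.exp (om d s) =
          Real.exp (om d s) * (√(kap d') * Real.exp (om d' s - om d s) - √(kap d)) := by
        rw [Real.exp_sub]; field_simp
      have f2 : Real.exp (-om d' s) - Real.exp (-om d s) =
          Real.exp (-om d s) * (Real.exp (-(om d' s - om d s)) - 1) := by
        rw [mul_sub, ← Real.exp_add]; ring_nf
      rw [f1, f2, abs_mul, abs_mul, Real.abs_exp, Real.abs_exp]
      have g1 := mul_le_mul_of_nonneg_right (Real.exp_le_exp.2 h3.2)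
        (abs_nonneg (√(kap d') * Real.exp (om d' s - om d s) - √(kap d)))
      have g2 := mul_le_mul_of_nonneg_right (Real.exp_le_exp.2 (neg_le.1 h3.1))
        (abs_nonneg (Real.exp (-(om d' s - om d s)) - 1))
      have g3 := mul_nonneg (Real.exp_pos M).le
        (abs_nonneg (√(kap d') * Real.exp (om d' s - om d s) - √(kap d)))
      have g4 := mul_nonneg (Real.exp_pos M).le (abs_nonneg (Real.exp (-(om d' s - om d s)) - 1))
      constructor <;> linarith
    have C := (H d hd).2.2.1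
    have h5 := stab (r := 0) (H d' hd').2.2.1 C.y0 C.n0 C.p0 C.dy C.dn C.dp (fun s hs => (key s hs).1)
      (fun s hs => (key s hs).2) le_rfl fun s _ => le_of_eq (by ring)
    rw [Real.dist_eq]
    linarith
  exact intermediate_value_Icc' (by norm_num) hy ⟨by linarith, by linarith⟩

end Pool.Agent.MP_6b3e96_gt.H39
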